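import Pool.Agent.N214.CP.Stm
import Pool.Agent.N145.PC.Gen

/-!
Project CP (helper214), leaf PTS: comparison of two fibres of a multi-valued map.
The auxiliary lemmas are those of helper145 (`Pool/Agent/N145/PC`, `Pool/Agent/N145/SX`).
-/

set_option autoImplicit false
set_option linter.overlappingInstances false
set_option linter.unusedSectionVars false
set_option linter.unusedVariables false
set_option maxHeartbeats 4000000
set_option synthInstance.maxHeartbeats 400000

open Module

namespace Pool.Agent.N218.CP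

open scoped Classical

section

variable {K L Ω : Type} [Field K] [Field L] [Field Ω] [Algebra ℂ K] [Algebra ℂ L] [Algebra ℂ Ω]
  [Algebra L K] [IsScalarTower ℂ L K] [Algebra L Ω] [IsScalarTower ℂ L Ω] [FiniteDimensional L K]

/-- the restriction of an embedding to a subfield -/
def res (E : Type) [Field E] [Algebra ℂ E] [Algebra E K] [IsScalarTower ℂ E K] (τ : K →ₐ[L] Ω) :
    E →ₐ[ℂ] Ω := (τ.restrictScalars ℂ).comp (IsScalarTower.toAlgHom ℂ E K)

theorem res_apply (E : Type) [Field E] [Algebra ℂ E] [Algebra E K] [IsScalarTower ℂ E K]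
    (τ : K →ₐ[L] Ω) (z : E) : res E τ z = τ (algebraMap E K z) := rfl

theorem charZero_L : CharZero L := charZero_of_injective_algebraMap (algebraMap ℂ L).injective

variable [IsAlgClosed Ω] (E : Type) [Field E] [Algebra ℂ E] [Algebra E K] [IsScalarTower ℂ E K]

/-- the number of the images of the points of a fibre -/
theorem card_res : (Finset.univ.image (res (K := K) (L := L) (Ω := Ω) E)).card ≤
    finrank L (IntermediateField.adjoin L (Set.range (algebraMap E K))) := by
  have hchar : CharZero L := charZero_L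
  let M := IntermediateField.adjoin L (Set.range (algebraMap E K))
  have hE : ∀ z : E, algebraMap E K z ∈ M := fun z =>
    IntermediateField.subset_adjoin _ _ ⟨z, rfl⟩
  let ι : E →ₐ[ℂ] M :=
    { toFun := fun z => ⟨algebraMap E K z, hE z⟩
      map_one' := Subtype.ext (map_one _)
      map_mul' := fun a b => Subtype.ext (map_mul _ a b)
      map_zero' := Subtype.ext (map_zero _)
      map_add' := fun a b => Subtype.ext (map_add _ a b)
      commutes' := fun c => Subtype.ext (IsScalarTower.algebraMap_apply ℂ E K c).symm }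
  let r : (M →ₐ[L] Ω) → (E →ₐ[ℂ] Ω) := fun ψ => (ψ.restrictScalars ℂ).comp ι
  have hsub : Finset.univ.image (res (K := K) (L := L) (Ω := Ω) E) ⊆ Finset.univ.image r := by
    intro σ hσ
    obtain ⟨τ, -, rfl⟩ := Finset.mem_image.1 hσ
    exact Finset.mem_image.2 ⟨τ.comp M.val, Finset.mem_univ _, rfl⟩
  calc _ ≤ (Finset.univ.image r).card := Finset.card_le_card hsub
    _ ≤ (Finset.univ : Finset (M →ₐ[L] Ω)).card := Finset.card_image_le
    _ = finrank L M := by
      rw [Finset.card_univ]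
      exact AlgHom.card L M Ω

/-- points of the fibre with the same image agree on the field generated -/
theorem res_eq (τ0 τ : K →ₐ[L] Ω) (h : res E τ = res E τ0) :
    ∀ z ∈ IntermediateField.adjoin L (Set.range (algebraMap E K)), τ z = τ0 z := by
  intro z hz
  have h1 : IntermediateField.adjoin L (Set.range (algebraMap E K)) ≤
      { (AlgHom.equalizer τ τ0) with
        inv_mem' := fun a ha => by
          have ha' : τ a = τ0 a := ha
          change τ a⁻¹ = τ0 a⁻¹
          rw [map_inv₀, map_inv₀, ha'] } := by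
    rw [IntermediateField.adjoin_le_iff]
    rintro _ ⟨y, rfl⟩
    exact DFunLike.congr_fun h y
  exact h1 hz

theorem alg_back {N : IntermediateField ℂ L} (τ0 : K →ₐ[L] AlgebraicClosure L) {z : K}
    (h : IsAlgebraic N (τ0 z)) : IsAlgebraic N z := by
  obtain ⟨p, hp0, hp⟩ := h
  refine ⟨p, hp0, ?_⟩
  apply τ0.injective
  rw [map_zero, ← hp, Polynomial.aeval_def, Polynomial.aeval_def, Polynomial.hom_eval₂]
  congr 1
  ext c
  exact τ0.commutes (c : L)

variable {E}

/-- the sum over the points of a fibre -/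
theorem key {Ω' : Type} [Field Ω'] [Algebra ℂ Ω'] (j : Ω →ₐ[ℂ] Ω') {Φ : Set E} (μ : Φ →₀ Ω')
    (w : (K →ₐ[L] Ω) → Ω')
    (hw : ∀ τ : K →ₐ[L] Ω, ∑ f ∈ μ.support, μ f * j (τ (algebraMap E K f)) = w τ)
    {e : ℕ} (h : Fin e → E) (a : E → Fin e → L) (x : K)
    (hT : ∀ f ∈ Φ, Algebra.trace L K (x * algebraMap E K f) =
      ∑ i, a f i * Algebra.trace L K (x * algebraMap E K (h i))) :
    ∑ i, (∑ f ∈ μ.support, μ f * j (algebraMap L Ω (a f i))) *
      j (algebraMap L Ω (Algebra.trace L K (x * algebraMap E K (h i)))) =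
    ∑ τ : K →ₐ[L] Ω, j (τ x) * w τ := by
  have hchar : CharZero L := charZero_L
  have h1 : ∀ f : Φ, ∑ i, j (algebraMap L Ω (a f i)) *
      j (algebraMap L Ω (Algebra.trace L K (x * algebraMap E K (h i)))) =
      ∑ τ : K →ₐ[L] Ω, j (τ x) * j (τ (algebraMap E K f)) := by
    intro f
    have h2 := trace_eq_sum_embeddings (K := L) (L := K) Ω (x := x * algebraMap E K (f : E))
    rw [hT f f.2, map_sum] at h2
    have h3 := congrArg j h2
    rw [map_sum, map_sum] at h3
    calc _ = ∑ i, j (algebraMap L Ω (a f i * Algebra.trace L K (x * algebraMap E K (h i)))) := by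
          refine Finset.sum_congr rfl fun i _ => ?_
          rw [← map_mul, ← map_mul]
      _ = ∑ τ : K →ₐ[L] Ω, j (τ (x * algebraMap E K (f : E))) := h3
      _ = _ := by
          refine Finset.sum_congr rfl fun τ _ => ?_
          rw [← map_mul, ← map_mul]
  calc _ = ∑ i, ∑ f ∈ μ.support, μ f * (j (algebraMap L Ω (a f i)) *
        j (algebraMap L Ω (Algebra.trace L K (x * algebraMap E K (h i))))) := by
        refine Finset.sum_congr rfl fun i _ => ?_
        rw [Finset.sum_mul]
        refine Finset.sum_congr rfl fun f _ => ?_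
        rw [mul_assoc]
    _ = ∑ f ∈ μ.support, ∑ i, μ f * (j (algebraMap L Ω (a f i)) *
        j (algebraMap L Ω (Algebra.trace L K (x * algebraMap E K (h i))))) := Finset.sum_comm
    _ = ∑ f ∈ μ.support, ∑ τ : K →ₐ[L] Ω, μ f * (j (τ x) * j (τ (algebraMap E K f))) := by
        refine Finset.sum_congr rfl fun f _ => ?_
        rw [← Finset.mul_sum, h1, Finset.mul_sum]
    _ = ∑ τ : K →ₐ[L] Ω, ∑ f ∈ μ.support, μ f * (j (τ x) * j (τ (algebraMap E K f))) :=
        Finset.sum_comm
    _ = _ := by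
        refine Finset.sum_congr rfl fun τ _ => ?_
        rw [← hw, Finset.mul_sum]
        refine Finset.sum_congr rfl fun f _ => ?_
        ring

end

/-- the values of the functions in `Φ` at the points of `A` span everything -/
theorem span_top {E : Type} [Field E] [Algebra ℂ E] {Φ : Set E} {g : ℕ}
    (hsep : Pool.Agent.N214.CP.Sep Φ g) {Ω : Type} [Field Ω] [Algebra ℂ Ω] [IsAlgClosed Ω]
    (A : Finset (E →ₐ[ℂ] Ω)) (hA : A.card < g) (x0 : E →ₐ[ℂ] Ω) :
    ∃ μ : Φ →₀ Ω, ∀ y ∈ A, ∑ f ∈ μ.support, μ f * y f = if y = x0 then 1 else 0 := by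
  have htop : Submodule.span Ω (Set.range fun f : Φ => fun y : A => (y : E →ₐ[ℂ] Ω) f) = ⊤ := by
    by_contra hne
    obtain ⟨φ, hφ0, hφ⟩ := Submodule.exists_le_ker_of_lt_top _ (lt_top_iff_ne_top.2 hne)
    have hexp : ∀ v : A → Ω, φ v = ∑ y : A, v y * φ (Pi.single y 1) := by
      intro v
      conv_lhs => rw [← Finset.univ_sum_single v]
      rw [map_sum]
      refine Finset.sum_congr rfl fun y _ => ?_
      have : (Pi.single y (v y) : A → Ω) = v y • Pi.single y (1 : Ω) := by
        rw [← Pi.single_smul, smul_eq_mul, mul_one]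
      rw [this, map_smul, smul_eq_mul]
    have h1 := hsep Ω A hA (fun σ => if hσ : σ ∈ A then φ (Pi.single ⟨σ, hσ⟩ 1) else 0) (by
      intro f hf
      have h2 : φ (fun y : A => (y : E →ₐ[ℂ] Ω) f) = 0 :=
        hφ (Submodule.subset_span ⟨⟨f, hf⟩, rfl⟩)
      rw [hexp] at h2
      rw [← h2, ← Finset.sum_coe_sort A]
      refine Finset.sum_congr rfl fun y _ => ?_
      rw [dif_pos y.2, mul_comm])
    apply hφ0
    refine LinearMap.ext fun v => ?_
    rw [hexp, LinearMap.zero_apply]
    refine Finset.sum_eq_zero fun y _ => ?_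
    have h3 := h1 y y.2
    rw [dif_pos y.2] at h3
    rw [h3, mul_zero]
  have hmem : (fun y : A => if (y : E →ₐ[ℂ] Ω) = x0 then (1 : Ω) else 0) ∈
      Submodule.span Ω (Set.range fun f : Φ => fun y : A => (y : E →ₐ[ℂ] Ω) f) := by
    rw [htop]
    exact Submodule.mem_top
  obtain ⟨μ, hμ⟩ := Finsupp.mem_span_range_iff_exists_finsupp.1 hmem
  refine ⟨μ, fun y hy => ?_⟩
  have h1 := congrFun hμ ⟨y, hy⟩
  rw [← h1, Finsupp.sum, Finset.sum_apply]
  rfl

/-- **PTS.** The comparison of two fibres. -/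
theorem PTS : Pool.Agent.N214.CP.S_PTS := by
  intro N K E _ _ _ _ _ _ _ _ _ _ _ Φ g hsep hd 𝒟 J hJ hJ0 e h a Ds hT hdet z
  have hchar : CharZero N := charZero_L
  obtain ⟨R, hR⟩ : ∃ R, R = IntermediateField.adjoin ℂ
    (Set.range fun p : Φ × Fin e => a (p.1 : E) p.2) := ⟨_, rfl⟩
  rw [← hR]
  have hmemR : ∀ (f : Φ) (i : Fin e), a (f : E) i ∈ R := fun f i => by
    rw [hR]
    exact IntermediateField.subset_adjoin _ _ ⟨(f, i), rfl⟩
  obtain ⟨Ω', iF, iC, i1, i2, h2, h3⟩ :=
    Pool.Agent.N145.PC.exists_generic R (AlgebraicClosure N)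
  let Ω := AlgebraicClosure N
  have hT' : IsScalarTower ℂ N Ω := inferInstance
  let iA : Algebra ℂ Ω' := (i1.comp (algebraMap ℂ Ω)).toAlgebra
  have h4 : ∀ c : R, i2 (algebraMap N Ω c) = i1 (algebraMap N Ω c) := h2
  let j1 : Ω →ₐ[ℂ] Ω' := { i1 with commutes' := fun c => rfl }
  let j2 : Ω →ₐ[ℂ] Ω' := { i2 with
    commutes' := fun c => by
      have h5 := h4 (algebraMap ℂ R c)
      change i2 (algebraMap ℂ Ω c) = i1 (algebraMap ℂ Ω c)
      rw [IsScalarTower.algebraMap_apply ℂ N Ω]
      exact h5 }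
  have hj : ∀ c ∈ R, j2 (algebraMap N Ω c) = j1 (algebraMap N Ω c) := fun c hc => h4 ⟨c, hc⟩
  have hcharΩ' : CharZero Ω' := charZero_of_injective_algebraMap (algebraMap ℂ Ω').injective
  obtain ⟨τ0⟩ : Nonempty (K →ₐ[N] Ω) :=
    ⟨IsAlgClosed.lift (R := N) (M := Ω) (S := K)⟩
  -- the claim
  have hex : ∃ τ : K →ₐ[N] Ω, ∀ z : E,
      j2 (τ (algebraMap E K z)) = j1 (τ0 (algebraMap E K z)) := by
    by_contra hex
    let p : (K →ₐ[N] Ω) ⊕ (K →ₐ[N] Ω) → (E →ₐ[ℂ] Ω') :=
      Sum.elim (fun τ => j1.comp (res E τ)) (fun τ => j2.comp (res E τ))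
    have hcard : (Finset.univ.image p).card < g := by
      obtain ⟨A, hA⟩ : ∃ A, A = Finset.univ.image (res (K := K) (L := N) (Ω := Ω) E) := ⟨_, rfl⟩
      have h6 : A.card ≤ finrank N (IntermediateField.adjoin N (Set.range (algebraMap E K))) := by
        rw [hA]
        exact card_res (L := N) (Ω := Ω) E
      obtain ⟨U1, hU1⟩ : ∃ U1 : Finset (E →ₐ[ℂ] Ω'), U1 = A.image fun σ => j1.comp σ := ⟨_, rfl⟩
      obtain ⟨U2, hU2⟩ : ∃ U2 : Finset (E →ₐ[ℂ] Ω'), U2 = A.image fun σ => j2.comp σ := ⟨_, rfl⟩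
      have h4 : U1.card ≤ A.card := by
        rw [hU1]
        exact Finset.card_image_le
      have h5 : U2.card ≤ A.card := by
        rw [hU2]
        exact Finset.card_image_le
      have h1 : Finset.univ.image p ⊆ U1 ∪ U2 := by
        intro σ hσ
        obtain ⟨ρ, -, rfl⟩ := Finset.mem_image.1 hσ
        rw [Finset.mem_union, hU1, hU2, hA]
        rcases ρ with τ | τ
        · exact Or.inl (Finset.mem_image_of_mem _
            (Finset.mem_image_of_mem _ (Finset.mem_univ τ)))
        · exact Or.inr (Finset.mem_image_of_mem _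
            (Finset.mem_image_of_mem _ (Finset.mem_univ τ)))
      have h2 := Finset.card_le_card h1
      have h3 := Finset.card_union_le U1 U2
      omega
    obtain ⟨μ, hμ⟩ := span_top hsep (Finset.univ.image p) hcard (p (Sum.inl τ0))
    have hk1 : ∀ D, _ := fun D => key (L := N) j1 μ
      (fun τ => if p (Sum.inl τ) = p (Sum.inl τ0) then 1 else 0)
      (fun τ => hμ (p (Sum.inl τ)) (Finset.mem_image_of_mem _ (Finset.mem_univ _)))
      h a (J D) (fun f hf => hT f hf D)
    have hk2 : ∀ D, _ := fun D => key (L := N) j2 μ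
      (fun τ => if p (Sum.inr τ) = p (Sum.inl τ0) then 1 else 0)
      (fun τ => hμ (p (Sum.inr τ)) (Finset.mem_image_of_mem _ (Finset.mem_univ _)))
      h a (J D) (fun f hf => hT f hf D)
    have hne : ∀ τ : K →ₐ[N] Ω, p (Sum.inr τ) ≠ p (Sum.inl τ0) := fun τ hτ =>
      hex ⟨τ, fun z => DFunLike.congr_fun hτ z⟩
    simp only [hne, if_false, mul_zero, Finset.sum_const_zero] at hk2
    -- the coefficients vanish
    obtain ⟨b, hb⟩ : ∃ b : Fin e → Ω', b = fun i =>
      ∑ f ∈ μ.support, μ f * j2 (algebraMap N Ω (a (f : E) i)) := ⟨_, rfl⟩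
    have hb1 : ∀ i, ∑ f ∈ μ.support, μ f * j1 (algebraMap N Ω (a (f : E) i)) = b i := by
      intro i
      rw [hb]
      refine Finset.sum_congr rfl fun f _ => ?_
      rw [hj _ (hmemR f i)]
    let φ : N →+* Ω' := (j2 : Ω →+* Ω').comp (algebraMap N Ω)
    have hb0 : b = 0 := by
      refine Matrix.eq_zero_of_vecMul_eq_zero (M := (φ.mapMatrix (Matrix.of fun i j =>
        Algebra.trace N K (J (Ds j) * algebraMap E K (h i)) : Matrix (Fin e) (Fin e) N))) ?_ ?_
      · rw [← RingHom.map_det]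
        exact (_root_.map_ne_zero φ).2 hdet
      · ext j
        rw [Matrix.vecMul, dotProduct, Pi.zero_apply, ← hk2 (Ds j), hb]
        rfl
    obtain ⟨D, hD⟩ := hJ0
    have h5 := hk1 D
    simp only [hb1, hb0, Pi.zero_apply, zero_mul, Finset.sum_const_zero, mul_ite, mul_one,
      mul_zero] at h5
    rw [← Finset.sum_filter] at h5
    have h6 : ∀ τ ∈ Finset.univ.filter (fun τ : K →ₐ[N] Ω => p (Sum.inl τ) = p (Sum.inl τ0)),
        j1 (τ (J D)) = j1 (τ0 (J D)) := by
      intro τ hτ
      rw [Finset.mem_filter] at hτ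
      congr 1
      refine res_eq E τ0 τ ?_ _ (hJ D)
      ext z
      exact j1.injective (DFunLike.congr_fun hτ.2 z)
    rw [Finset.sum_congr rfl h6, Finset.sum_const, nsmul_eq_mul] at h5
    have h7 := mul_eq_zero.1 h5.symm
    rcases h7 with h7 | h7
    · rw [Nat.cast_eq_zero, Finset.card_eq_zero] at h7
      have : τ0 ∈ Finset.univ.filter
          (fun τ : K →ₐ[N] Ω => p (Sum.inl τ) = p (Sum.inl τ0)) :=
        Finset.mem_filter.2 ⟨Finset.mem_univ _, rfl⟩
      rw [h7] at this
      exact absurd this (Finset.notMem_empty _)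
    · rw [_root_.map_eq_zero, _root_.map_eq_zero] at h7
      exact hD h7
  obtain ⟨τ, hτ⟩ := hex
  exact alg_back τ0 (h3 _ _ (hτ z).symm)

end Pool.Agent.N218.CP
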